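import Pool.Agent.X247.GPP.Geom

/-! MP_4c1c99_co, Q1: the threshold `N(k)` is at most `3200 k^5`. -/

open Finset

namespace Pool.Agent.Results.MP_4c1c99_co.PolynomialBound

open Pool.X247.GPP

/-- every configuration `S` with `LC(S) ≤ k` and `|S| ≥ n` satisfies `GP(S) = ⌈ONLINE(S)/2⌉` -/
def Good (k n : ℕ) : Prop :=
  ∀ S : Finset Pt, lineCover S ≤ k → n ≤ S.card → gpNum S = (onlineNum S + 1) / 2

/-- `N(k)`: the least `n` with this property -/
noncomputable def N (k : ℕ) : ℕ := sInf {n | Good k n}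

theorem good (k : ℕ) (hk : 1 ≤ k) : Good k (3200 * k ^ 5) := by
  intro S hS hn
  obtain ⟨C, hC, h1, h2⟩ := lineCover_spec S
  have h3 := card_le_mul S C h1 h2
  refine gp_eq S C h1 h2 ?_
  have hCk : C.card ≤ k := by omega
  have h4 : C.card ^ 4 ≤ k ^ 4 := Nat.pow_le_pow_left hCk 4
  have h5 : k * (3200 * k ^ 4) ≤ k * onlineNum S := by
    calc k * (3200 * k ^ 4) = 3200 * k ^ 5 := by ring
      _ ≤ S.card := hn
      _ ≤ C.card * onlineNum S := h3
      _ ≤ k * onlineNum S := Nat.mul_le_mul_right _ hCk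
  have h6 := Nat.le_of_mul_le_mul_left h5 (by omega)
  omega

theorem result : (∀ k : ℕ, 1 ≤ k → Good k (N k) ∧ N k ≤ 3200 * k ^ 5) ∧
    ∀ k n : ℕ, 1 ≤ k → 3200 * k ^ 5 ≤ n → Good k n := by
  refine ⟨fun k hk => ?_, fun k n hk hn S hS hc => good k hk S hS (hn.trans hc)⟩
  have hne : {n | Good k n}.Nonempty := ⟨_, good k hk⟩
  exact ⟨Nat.sInf_mem hne, Nat.sInf_le (good k hk)⟩

end Pool.Agent.Results.MP_4c1c99_co.PolynomialBound
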