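import Pool.Agent.X247.GPP.KernelC

/-! MP_4c1c99_co, Q2: computing `GP(S)`, parameterized by `LC(S)`, admits a polynomial kernel. -/

namespace Pool.Agent.Results.MP_4c1c99_co.PolynomialKernel

open Pool.X247.GPP Pool.Agent.NPC

/-- An instance: a list of rational points (the configuration is the set of its members) and an integer `g`. -/
abbrev Inst : Type := List (ℚ × ℚ) × ℤ

/-- A polynomial kernel: a function `f` on instances, computed on the bit strings coding the instances by a
polynomial-time Turing machine, and a polynomial `p`, such that `GP(S) ≤ g` iff `GP(S') ≤ g'` for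
`(S', g') = f (S, g)`, the points of `S'` are listed without repetition, and `|S'| ≤ p(LC(S))`, `g' ≤ p(LC(S))`. -/
def HasPolynomialKernel : Prop :=
  ∃ (f : Inst → Inst) (F : List Bool → List Bool) (p : Polynomial ℕ),
    PolyTime F ∧ (∀ I, F (bits I) = bits (f I)) ∧
    ∀ I : Inst, ((gpNum (conf I.1) : ℤ) ≤ I.2 ↔ (gpNum (conf (f I).1) : ℤ) ≤ (f I).2) ∧
      (f I).1.Nodup ∧ (f I).1.length ≤ p.eval (lineCover (conf I.1)) ∧
      (f I).2 ≤ ((p.eval (lineCover (conf I.1)) : ℕ) : ℤ)

/-- the kernel with an integer bound -/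
def kerZ (I : Inst) : Inst :=
  if I.2 < 0 then ([(0, 0)], 0) else ((ker (I.1, I.2.toNat)).1, (((ker (I.1, I.2.toNat)).2 : ℕ) : ℤ))

theorem poly_kerZ : Poly kerZ := by
  unfold kerZ
  have h1 : Poly (fun I : Inst => ker (I.1, I.2.toNat)) :=
    poly_ker.comp (Poly.pair (Poly.fst Poly.id) (Poly.toNat (Poly.snd Poly.id)))
  exact Poly.ite (Poly.ilt (Poly.snd Poly.id) (Pool.Agent.NPC.Poly.const 0)) (Pool.Agent.NPC.Poly.const _)
    (Poly.pair (Poly.fst h1) (Poly.natCast (Poly.snd h1)))

theorem result : HasPolynomialKernel := by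
  refine ⟨kerZ, _, pol, polyTime_opt (Poly.optMap (o := unbits Inst) (f := fun _ a => kerZ a) poly_unbits
    (poly_kerZ.comp (Poly.snd Poly.id))), ?_, ?_⟩
  · intro I
    simp only [unbits_bits, Option.map_some]
  · intro I
    by_cases h : I.2 < 0
    · have e : kerZ I = ([(0, 0)], 0) := by unfold kerZ; rw [if_pos h]
      rw [e]
      have hpos : 0 < gpNum (conf [((0 : ℚ), (0 : ℚ))]) := gp_pos ⟨toPt (0, 0), toPt_mem_conf.2 (by simp)⟩
      rw [pol_eval]
      refine ⟨?_, by simp, by simp, by positivity⟩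
      constructor
      · intro h1; exfalso; omega
      · intro h1; exfalso; simp only at h1; omega
    · have e : kerZ I = ((ker (I.1, I.2.toNat)).1, (((ker (I.1, I.2.toNat)).2 : ℕ) : ℤ)) := by
        unfold kerZ; rw [if_neg h]
      obtain ⟨h1, h2, h3, h4⟩ := ker_spec (I.1, I.2.toNat)
      rw [e]
      simp only at h1 h2 h3 h4 ⊢
      refine ⟨?_, h2, h3, by exact_mod_cast h4⟩
      have e2 : ((I.2.toNat : ℕ) : ℤ) = I.2 := Int.toNat_of_nonneg (by omega)
      constructor
      · intro h5
        have : gpNum (conf I.1) ≤ I.2.toNat := by omega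
        exact_mod_cast h1.1 this
      · intro h5
        have : gpNum (conf I.1) ≤ I.2.toNat := h1.2 (by exact_mod_cast h5)
        omega

end Pool.Agent.Results.MP_4c1c99_co.PolynomialKernel
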